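import Pool.Agent.H295R2.Mol.Defs

/-!
# T3: the upper bound (helper793)
-/

set_option autoImplicit false

open MeasureTheory Filter Topology Set
open scoped ENNReal

namespace Pool.Agent.H295R2.Mol

namespace T3

theorem memLp_weight (p : ℝ≥0∞) (w : ℝ) (hp : 1 ≤ p) (hw : 1 / p.toReal < w) :
    MemLp (fun t : ℝ => (1 + |t|) ^ (-w)) p volume := by
  have hw0 : 0 < w := lt_of_le_of_lt (by positivity) hw
  have hmeas : AEStronglyMeasurable (fun t : ℝ => (1 + |t|) ^ (-w)) volume := by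
    apply Continuous.aestronglyMeasurable
    apply Continuous.rpow_const (by fun_prop)
    intro t
    left
    have := abs_nonneg t
    positivity
  by_cases hpt : p = ⊤
  · rw [hpt]
    refine memLp_top_of_bound hmeas 1 (Filter.Eventually.of_forall fun t => ?_)
    have h1 : (1:ℝ) ≤ 1 + |t| := by have := abs_nonneg t; linarith
    rw [Real.norm_of_nonneg (by positivity)]
    exact Real.rpow_le_one_of_one_le_of_nonpos h1 (by linarith)
  · have hp0 : p ≠ 0 := by
      intro h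
      rw [h] at hp
      simp at hp
    rw [← integrable_norm_rpow_iff hmeas hp0 hpt]
    have hpp : 0 < p.toReal := ENNReal.toReal_pos hp0 hpt
    have h1 : (Module.finrank ℝ ℝ : ℝ) < w * p.toReal := by
      rw [Module.finrank_self, Nat.cast_one]
      rwa [div_lt_iff₀ hpp] at hw
    refine (integrable_one_add_norm h1).congr (Filter.Eventually.of_forall fun t => ?_)
    have h2 : (0:ℝ) < 1 + |t| := by have := abs_nonneg t; linarith
    show (1 + ‖t‖) ^ (-(w * p.toReal)) = ‖(1 + |t|) ^ (-w)‖ ^ p.toReal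
    rw [Real.norm_eq_abs t, Real.norm_of_nonneg (by positivity), ← Real.rpow_mul h2.le, neg_mul]

theorem upper (h1 : Lit) (h2 : Approx) : Upper := by
  intro lam mu F hF p w hp hw θ σ ε hZ hσ hε
  set ε' : ℝ := min ε ((w - 1 / p.toReal) / 4) with hε'
  have hε'0 : 0 < ε' := lt_min hε (by linarith)
  have hε'1 : ε' ≤ ε := min_le_left _ _
  have hε'2 : ε' ≤ (w - 1 / p.toReal) / 4 := min_le_right _ _
  obtain ⟨C1, hC1, hL⟩ := h1 lam mu F hF θ σ σ ε' hZ hσ hε'0
  obtain ⟨C2, hC2, hA⟩ := h2 lam mu F hF θ σ ε' hZ hσ hε'0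
  set w' : ℝ := w - 2 * ε' with hw'
  have hw'1 : 1 / p.toReal < w' := by linarith
  have hmem := memLp_weight p w' hp hw'1
  set K : ℝ≥0∞ := eLpNorm (fun t : ℝ => (1 + |t|) ^ (-w')) p volume with hK
  have hKtop : K ≠ ⊤ := hmem.eLpNorm_ne_top
  refine ⟨C1 * C2 * (K.toReal + 1), by positivity, ?_⟩
  intro N hN
  have hN1 : (1:ℝ) ≤ N := by exact_mod_cast hN
  have hN0 : (0:ℝ) < N := by linarith
  set c : ℝ := C1 * C2 * (N:ℝ) ^ (-(σ - θ) + ε) with hc
  have hc0 : 0 ≤ c := by positivity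
  have hpt : ∀ t : ℝ, ‖GG F N (moll mu N) (σ + t * Complex.I) *
      (((1 + |t|) ^ (-w) : ℝ) : ℂ)‖ ≤ c * ‖(1 + |t|) ^ (-w')‖ := by
    intro t
    have hb : (0:ℝ) < 1 + |t| := by have := abs_nonneg t; linarith
    set s : ℂ := σ + t * Complex.I with hs
    have hre : s.re = σ := by simp [hs]
    have him : s.im = t := by simp [hs]
    have hFs : F s ≠ 0 := hZ s (by rw [hre]; exact hσ)
    have e1 : GG F N (moll mu N) s = F s * ((F s)⁻¹ - DP N (moll mu N) s) := by
      unfold GG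
      rw [mul_sub, mul_inv_cancel₀ hFs]
    have l1 := (hL s hre.ge hre.le).1
    rw [him] at l1
    have l2 := hA N hN t
    rw [← hs] at l2
    have e2 : (N:ℝ) ^ (-(σ - θ) + ε') ≤ (N:ℝ) ^ (-(σ - θ) + ε) :=
      Real.rpow_le_rpow_of_exponent_le hN1 (by linarith)
    have e3 : (1 + |t|) ^ ε' * (1 + |t|) ^ ε' * (1 + |t|) ^ (-w) = (1 + |t|) ^ (-w') := by
      rw [← Real.rpow_add hb, ← Real.rpow_add hb]
      congr 1
      rw [hw']
      ring
    have hx : 0 ≤ (1 + |t|) ^ ε' := by positivity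
    rw [norm_mul, Complex.norm_real, Real.norm_of_nonneg (by positivity : 0 ≤ (1 + |t|) ^ (-w)),
      Real.norm_of_nonneg (by positivity : 0 ≤ (1 + |t|) ^ (-w')), e1, norm_mul]
    calc ‖F s‖ * ‖(F s)⁻¹ - DP N (moll mu N) s‖ * (1 + |t|) ^ (-w)
        ≤ (C1 * (1 + |t|) ^ ε') * (C2 * (N:ℝ) ^ (-(σ - θ) + ε') * (1 + |t|) ^ ε') *
          (1 + |t|) ^ (-w) := by
          refine mul_le_mul_of_nonneg_right ?_ (by positivity)
          exact mul_le_mul l1 l2 (norm_nonneg _) (by positivity)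
      _ ≤ (C1 * (1 + |t|) ^ ε') * (C2 * (N:ℝ) ^ (-(σ - θ) + ε) * (1 + |t|) ^ ε') *
          (1 + |t|) ^ (-w) := by
          refine mul_le_mul_of_nonneg_right ?_ (by positivity)
          refine mul_le_mul_of_nonneg_left ?_ (by positivity)
          refine mul_le_mul_of_nonneg_right ?_ hx
          exact mul_le_mul_of_nonneg_left e2 hC2.le
      _ = c * ((1 + |t|) ^ ε' * (1 + |t|) ^ ε' * (1 + |t|) ^ (-w)) := by rw [hc]; ring
      _ = c * (1 + |t|) ^ (-w') := by rw [e3]
  have hmain : nrm F p w σ N (moll mu N) ≤ ENNReal.ofReal c * K :=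
    eLpNorm_le_mul_eLpNorm_of_ae_le_mul (Filter.Eventually.of_forall hpt) p
  refine hmain.trans ?_
  have hK2 : K ≤ ENNReal.ofReal (K.toReal + 1) := by
    calc K = ENNReal.ofReal K.toReal := (ENNReal.ofReal_toReal hKtop).symm
      _ ≤ ENNReal.ofReal (K.toReal + 1) := ENNReal.ofReal_le_ofReal (by linarith)
  calc ENNReal.ofReal c * K ≤ ENNReal.ofReal c * ENNReal.ofReal (K.toReal + 1) := by gcongr
    _ = ENNReal.ofReal (c * (K.toReal + 1)) := (ENNReal.ofReal_mul hc0).symm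
    _ = ENNReal.ofReal (C1 * C2 * (K.toReal + 1) * (N:ℝ) ^ (-(σ - θ) + ε)) := by
        rw [hc]
        congr 1
        ring

end T3

end Pool.Agent.H295R2.Mol
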